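import Mathlib
import Pool.Agent.H820Z.DomDefs
import Pool.Agent.H820Z.DomLadder

set_option autoImplicit false

namespace Pool.Agent.Results.MP_940262_co.ALadders

open Pool.Agent.H820Z.Dom

/-- For every `k ≥ 2` and every `l ≥ 3` there is a finite connected `(γ_k, l)`-critical graph whose
order is smaller than `(δ_k + 1)(γ_k - 1) + 1`.  (The graphs are the circular ladders and Moebius
ladders on `4 k (l - 1)` vertices.) -/
theorem result (k l : ℕ) (hk : 2 ≤ k) (hl : 3 ≤ l) :
    ∃ (V : Type) (_ : Fintype V) (G : SimpleGraph V), G.Connected ∧ IsKCritical G k ∧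
      gammaK G k = l ∧ Fintype.card V < (deltaK G k + 1) * (gammaK G k - 1) + 1 :=
  main k l (by omega) hl

end Pool.Agent.Results.MP_940262_co.ALadders
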